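import Pool.Agent.H11.KT.Targets

/-!
# Fixed vectors of generators, the primitive case (row F_PM)
-/

set_option autoImplicit false

open scoped commutatorElement

namespace Pool.Agent.H98.KT

open Pool.Agent.H11.EL Pool.Agent.H11.KT

theorem fc_one {G V : Type} [Group G] [AddCommGroup V] [DistribMulAction G V] (g : G)
    (h : ∀ v : V, g • v = v → v = 0) : fc V g = 1 := by
  unfold fc
  rw [Nat.card_eq_one_iff_unique]
  constructor
  · constructor
    rintro ⟨v, hv⟩ ⟨w, hw⟩
    rw [Subtype.mk.injEq, h v hv, h w hw]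
  · exact ⟨⟨0, smul_zero g⟩⟩

theorem pow_of_sq {f c : ℕ} (hc : 1 ≤ c) (h : f ^ 2 ≤ c) : f ^ 4 ≤ c ^ 3 := by
  calc f ^ 4 = (f ^ 2) ^ 2 := by ring
    _ ≤ c ^ 2 := Nat.pow_le_pow_left h 2
    _ ≤ c ^ 3 := Nat.pow_le_pow_right hc (by norm_num)

theorem pf_PM (hSO : F_SO) (hNO : F_NO) (hCM : F_CM) : F_PM := by
  intro G V _ _ _ _ _ hsol hirr hnt hA S hS
  have hc : 1 ≤ Nat.card V := Nat.one_le_iff_ne_zero.mpr Nat.card_pos.ne'
  have hfix : ∀ A : Subgroup G, A.Normal → (∀ a ∈ A, ∀ a' ∈ A, a * a' = a' * a) → ∀ a ∈ A,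
      a ≠ 1 → fc V a = 1 := fun A h1 h2 a h3 h4 => fc_one a (hA A h1 h2 a h3 h4)
  have hsqrt : ∀ n : G, (∃ x z : G, ⁅x, n⁆ = z ∧ fc V z = 1) → fc V n ^ 4 ≤ Nat.card V ^ 3 := by
    rintro n ⟨x, z, hz, hz1⟩
    apply pow_of_sq hc
    have := hCM G V x n
    rw [hz, hz1, mul_one] at this
    exact this
  by_cases hab : ∀ a b : G, a * b = b * a
  · -- abelian
    have h1 : ¬ S ⊆ ((⊥ : Subgroup G) : Set G) := by
      intro h
      have h2 := hNO G hsol S ⊥ hS inferInstance h
      obtain ⟨a, ha⟩ := exists_ne (1 : G)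
      have : a ∈ (⊥ : Subgroup G) := by rw [h2]; exact Subgroup.mem_top a
      exact ha (Subgroup.mem_bot.mp this)
    rw [Set.not_subset] at h1
    obtain ⟨n, hn, hn1⟩ := h1
    refine ⟨n, hn, ?_⟩
    have hn2 : n ≠ 1 := fun h => hn1 (by rw [h]; exact Subgroup.one_mem _)
    rw [hfix ⊤ inferInstance (fun a _ a' _ => hab a a') n (Subgroup.mem_top n) hn2]
    simpa using Nat.one_le_pow 3 _ hc
  by_cases hcase : ∃ A : Subgroup G, A.Normal ∧ (∀ a ∈ A, ∀ a' ∈ A, a * a' = a' * a) ∧
      ¬ A ≤ Subgroup.center G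
  · obtain ⟨A, hAn, hAa, hAc⟩ := hcase
    have hKn : (Subgroup.centralizer (A : Set G)).Normal := by
      haveI := hAn
      infer_instance
    have hKne : Subgroup.centralizer (A : Set G) ≠ ⊤ := by
      intro h
      apply hAc
      intro a ha
      rw [Subgroup.mem_center_iff]
      intro g
      have hg : g ∈ Subgroup.centralizer (A : Set G) := by rw [h]; exact Subgroup.mem_top g
      exact ((Subgroup.mem_centralizer_iff.mp hg) a ha).symm
    have h1 : ¬ S ⊆ ((Subgroup.centralizer (A : Set G)) : Set G) :=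
      fun h => hKne (hNO G hsol S _ hS hKn h)
    rw [Set.not_subset] at h1
    obtain ⟨n, hn, hn1⟩ := h1
    refine ⟨n, hn, hsqrt n ?_⟩
    have h2 : ∃ a ∈ A, a * n ≠ n * a := by
      by_contra hcon
      push Not at hcon
      apply hn1
      rw [SetLike.mem_coe, Subgroup.mem_centralizer_iff]
      intro a ha
      exact hcon a ha
    obtain ⟨a, ha, han⟩ := h2
    refine ⟨a, _, rfl, ?_⟩
    apply hfix A hAn hAa
    · rw [commutatorElement_def, mul_assoc, mul_assoc]
      refine A.mul_mem ha ?_
      rw [← mul_assoc]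
      exact hAn.conj_mem _ (A.inv_mem ha) n
    · intro h
      exact han (commutatorElement_eq_one_iff_mul_comm.mp h)
  push Not at hcase
  -- every normal abelian subgroup is central
  have hZa : ∀ a ∈ Subgroup.center G, ∀ a' ∈ Subgroup.center G, a * a' = a' * a :=
    fun a _ a' ha' => (Subgroup.mem_center_iff.mp ha') a
  have hZne : Subgroup.center G ≠ ⊤ := by
    intro h
    apply hab
    intro a b
    have hb : b ∈ Subgroup.center G := by rw [h]; exact Subgroup.mem_top b
    exact (Subgroup.mem_center_iff.mp hb) a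
  obtain ⟨E, hEn, hZE, hEE⟩ := hSO G hsol (Subgroup.center G) inferInstance hZne
  have hfz : ∀ z ∈ Subgroup.center G, z ≠ 1 → fc V z = 1 :=
    fun z hz hz1 => hfix (Subgroup.center G) inferInstance hZa z hz hz1
  by_cases hi : ∃ n ∈ S, ∃ e ∈ E, ⁅e, n⁆ ∉ Subgroup.center G
  · obtain ⟨n, hn, e, he, hb⟩ := hi
    refine ⟨n, hn, ?_⟩
    have hbE : ⁅e, n⁆ ∈ E := by
      rw [commutatorElement_def, mul_assoc, mul_assoc]
      refine E.mul_mem he ?_
      rw [← mul_assoc]
      exact hEn.conj_mem _ (E.inv_mem he) n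
    have h2 : ∃ e' ∈ E, e' * ⁅e, n⁆ ≠ ⁅e, n⁆ * e' := by
      by_contra hcon
      push Not at hcon
      apply hb
      have hCn : (E ⊓ Subgroup.centralizer (E : Set G)).Normal := by
        haveI := hEn
        infer_instance
      refine hcase (E ⊓ Subgroup.centralizer (E : Set G)) hCn ?_ ?_
      · intro a ha a' ha'
        exact (Subgroup.mem_centralizer_iff.mp ha'.2) a ha.1
      · exact Subgroup.mem_inf.mpr ⟨hbE, Subgroup.mem_centralizer_iff.mpr fun e' he' => hcon e' he'⟩
    obtain ⟨e', he', hne⟩ := h2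
    have hz : ⁅e', ⁅e, n⁆⁆ ∈ Subgroup.center G :=
      hEE (Subgroup.commutator_mem_commutator he' hbE)
    have hz1 : ⁅e', ⁅e, n⁆⁆ ≠ 1 := fun h => hne (commutatorElement_eq_one_iff_mul_comm.mp h)
    have h3 := hCM G V e' ⁅e, n⁆
    rw [hfz _ hz hz1, mul_one] at h3
    have h4 := hCM G V e n
    calc fc V n ^ 4 = (fc V n ^ 2) ^ 2 := by ring
      _ ≤ (Nat.card V * fc V ⁅e, n⁆) ^ 2 := Nat.pow_le_pow_left h4 2
      _ = Nat.card V ^ 2 * fc V ⁅e, n⁆ ^ 2 := by ring
      _ ≤ Nat.card V ^ 2 * Nat.card V := Nat.mul_le_mul_left _ h3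
      _ = Nat.card V ^ 3 := by ring
  · push Not at hi
    have hmk : ∀ e g : G, ⁅e, g⁆ ∈ Subgroup.center G ↔
        (QuotientGroup.mk' (Subgroup.center G)) e * (QuotientGroup.mk' (Subgroup.center G)) g =
        (QuotientGroup.mk' (Subgroup.center G)) g * (QuotientGroup.mk' (Subgroup.center G)) e := by
      intro e g
      rw [← commutatorElement_eq_one_iff_mul_comm, ← map_commutatorElement,
        ← MonoidHom.mem_ker, QuotientGroup.ker_mk']
    set K : Subgroup G := (Subgroup.centralizer
      ((E.map (QuotientGroup.mk' (Subgroup.center G)) : Subgroup (G ⧸ Subgroup.center G)) :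
        Set (G ⧸ Subgroup.center G))).comap (QuotientGroup.mk' (Subgroup.center G)) with hK
    have hmemK : ∀ g, g ∈ K ↔ ∀ e ∈ E, ⁅e, g⁆ ∈ Subgroup.center G := by
      intro g
      rw [hK, Subgroup.mem_comap, Subgroup.mem_centralizer_iff]
      constructor
      · intro h e he
        rw [hmk]
        exact h _ (Subgroup.mem_map_of_mem _ he)
      · rintro h _ ⟨e, he, rfl⟩
        exact (hmk e g).mp (h e he)
    have hKn : K.Normal := by
      have h1 : (E.map (QuotientGroup.mk' (Subgroup.center G))).Normal :=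
        hEn.map _ (QuotientGroup.mk'_surjective _)
      haveI := h1
      rw [hK]
      infer_instance
    have hKtop : K = ⊤ := by
      apply hNO G hsol S K hS hKn
      intro n hn
      rw [SetLike.mem_coe, hmemK]
      exact fun e he => hi n hn e he
    have hall : ∀ e ∈ E, ∀ g : G, ⁅e, g⁆ ∈ Subgroup.center G := by
      intro e he g
      have : g ∈ K := by rw [hKtop]; exact Subgroup.mem_top g
      exact (hmemK g).mp this e he
    obtain ⟨e, he, heZ⟩ := Set.exists_of_ssubset hZE
    have hK'n : (Subgroup.centralizer ({e} : Set G)).Normal := by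
      constructor
      intro g hg h
      rw [Subgroup.mem_centralizer_singleton_iff] at hg ⊢
      have hz := hall e he h
      set z := ⁅e, h⁆ with hzd
      have e1 : e * h = z * h * e := by
        rw [hzd, commutatorElement_def]
        group
      have hzc : ∀ y : G, y * z = z * y := Subgroup.mem_center_iff.mp hz
      have e2 : e * h⁻¹ = z⁻¹ * h⁻¹ * e := by
        have e3 : h * (e * h⁻¹) = h * (z⁻¹ * h⁻¹ * e) := by
          have e4 : h * e = z⁻¹ * (e * h) := by rw [e1]; group
          have hzc' : h * z⁻¹ = z⁻¹ * h := by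
            have := hzc h
            calc h * z⁻¹ = z⁻¹ * (z * h) * z⁻¹ := by group
              _ = z⁻¹ * (h * z) * z⁻¹ := by rw [this]
              _ = z⁻¹ * h := by group
          calc h * (e * h⁻¹) = (h * e) * h⁻¹ := by group
            _ = z⁻¹ * (e * h) * h⁻¹ := by rw [e4]
            _ = z⁻¹ * e := by group
            _ = (z⁻¹ * h) * h⁻¹ * e := by group
            _ = (h * z⁻¹) * h⁻¹ * e := by rw [hzc']
            _ = h * (z⁻¹ * h⁻¹ * e) := by group
        exact mul_left_cancel e3
      have hzc' : (h * g) * z⁻¹ = z⁻¹ * (h * g) := by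
        have := hzc (h * g)
        calc (h * g) * z⁻¹ = z⁻¹ * (z * (h * g)) * z⁻¹ := by group
          _ = z⁻¹ * ((h * g) * z) * z⁻¹ := by rw [this]
          _ = z⁻¹ * (h * g) := by group
      first
        | (calc h * g * h⁻¹ * e = h * g * (h⁻¹ * e) := by group
            _ = h * g * (z * (z⁻¹ * h⁻¹ * e)) := by group
            _ = h * g * (z * (e * h⁻¹)) := by rw [e2]
            _ = (h * g * z) * (e * h⁻¹) := by group
            _ = (z * (h * g)) * (e * h⁻¹) := by rw [hzc]
            _ = z * h * (g * e) * h⁻¹ := by group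
            _ = z * h * (e * g) * h⁻¹ := by rw [hg]
            _ = (z * h * e) * g * h⁻¹ := by group
            _ = (e * h) * g * h⁻¹ := by rw [e1]
            _ = e * (h * g * h⁻¹) := by group)
        | (symm
           calc h * g * h⁻¹ * e = h * g * (h⁻¹ * e) := by group
            _ = h * g * (z * (z⁻¹ * h⁻¹ * e)) := by group
            _ = h * g * (z * (e * h⁻¹)) := by rw [e2]
            _ = (h * g * z) * (e * h⁻¹) := by group
            _ = (z * (h * g)) * (e * h⁻¹) := by rw [hzc]
            _ = z * h * (g * e) * h⁻¹ := by group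
            _ = z * h * (e * g) * h⁻¹ := by rw [hg]
            _ = (z * h * e) * g * h⁻¹ := by group
            _ = (e * h) * g * h⁻¹ := by rw [e1]
            _ = e * (h * g * h⁻¹) := by group)
    have hK'ne : Subgroup.centralizer ({e} : Set G) ≠ ⊤ := by
      intro h
      apply heZ
      rw [SetLike.mem_coe, Subgroup.mem_center_iff]
      intro g
      have hg : g ∈ Subgroup.centralizer ({e} : Set G) := by rw [h]; exact Subgroup.mem_top g
      have := Subgroup.mem_centralizer_singleton_iff.mp hg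
      first
        | exact this
        | exact this.symm
    have h1 : ¬ S ⊆ ((Subgroup.centralizer ({e} : Set G)) : Set G) :=
      fun h => hK'ne (hNO G hsol S _ hS hK'n h)
    rw [Set.not_subset] at h1
    obtain ⟨n, hn, hn1⟩ := h1
    refine ⟨n, hn, hsqrt n ⟨e, _, rfl, ?_⟩⟩
    apply hfz _ (hall e he n)
    intro h
    apply hn1
    rw [SetLike.mem_coe, Subgroup.mem_centralizer_singleton_iff]
    have := commutatorElement_eq_one_iff_mul_comm.mp h
    first
      | exact this
      | exact this.symm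

end Pool.Agent.H98.KT
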